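import Mathlib
import Pool.Agent.MWGR.StmtsE

/-!
# Row mwgr ALT: the alternating pattern
-/

set_option autoImplicit false

namespace Pool.Agent.MWGR.H95

open Pool.Agent.Helper14_MV Pool.Agent.Helper2_MV Pool.Agent.MVO Pool.Agent.MWL Pool.Agent.MWS
  Pool.Agent.MWH Pool.Agent.MWGR

/-- the counter: the next value is taken at the next block with the other letter -/
def al (i u v : ℕ) (B : ℕ → List ℕ) : ℕ → ℕ
  | 0 => 0
  | j + 1 => if i < j + 1 ∧ ((al i u v B j % 2 = 0 ∧ u ∈ B (j + 1)) ∨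
      (al i u v B j % 2 = 1 ∧ v ∈ B (j + 1))) then al i u v B j + 1 else al i u v B j

variable {i u v : ℕ} {B : ℕ → List ℕ}

theorem al_succ (j : ℕ) : al i u v B (j + 1) = if i < j + 1 ∧
    ((al i u v B j % 2 = 0 ∧ u ∈ B (j + 1)) ∨ (al i u v B j % 2 = 1 ∧ v ∈ B (j + 1))) then
      al i u v B j + 1 else al i u v B j := rfl

theorem al_le (j : ℕ) : al i u v B j ≤ al i u v B (j + 1) := by
  rw [al_succ]
  split_ifs <;> omega

theorem al_mono {j j' : ℕ} (h : j ≤ j') : al i u v B j ≤ al i u v B j' :=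
  monotone_nat_of_le_succ (f := al i u v B) al_le h

theorem al_le_self (j : ℕ) : al i u v B j ≤ j := by
  induction j with
  | zero => exact le_refl _
  | succ j ih =>
    rw [al_succ]
    split_ifs <;> omega

theorem al_zero (j : ℕ) (h : j ≤ i) : al i u v B j = 0 := by
  induction j with
  | zero => rfl
  | succ j ih =>
    rw [al_succ, if_neg (by omega)]
    exact ih (by omega)

theorem al_zero' (j : ℕ) (h : ∀ j', i < j' → j' ≤ j → u ∉ B j') : al i u v B j = 0 := by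
  induction j with
  | zero => rfl
  | succ j ih =>
    have h1 := ih (fun j' h1 h2 => h j' h1 (by omega))
    rw [al_succ, if_neg, h1]
    rintro ⟨h2, h3 | h3⟩
    · exact h (j + 1) h2 (le_refl _) h3.2
    · rw [h1] at h3
      omega

theorem al_first (n : ℕ) : ∀ t, 1 ≤ t → t ≤ al i u v B n → ∃ j, i < j ∧ j ≤ n ∧
    al i u v B j = t ∧ (t % 2 = 1 → u ∈ B j) ∧ (t % 2 = 0 → v ∈ B j) := by
  induction n with
  | zero =>
    intro t h1 h2
    have h3 : al i u v B 0 = 0 := rfl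
    omega
  | succ n ih =>
    intro t h1 h2
    by_cases h3 : t ≤ al i u v B n
    · obtain ⟨j, e1, e2, e3, e4, e5⟩ := ih t h1 h3
      exact ⟨j, e1, by omega, e3, e4, e5⟩
    · by_cases h4 : i < n + 1 ∧
        ((al i u v B n % 2 = 0 ∧ u ∈ B (n + 1)) ∨ (al i u v B n % 2 = 1 ∧ v ∈ B (n + 1)))
      · have h5 : al i u v B (n + 1) = al i u v B n + 1 := by rw [al_succ, if_pos h4]
        refine ⟨n + 1, h4.1, le_refl _, by omega, ?_, ?_⟩
        · intro h6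
          rcases h4.2 with h7 | h7
          · exact h7.2
          · omega
        · intro h6
          rcases h4.2 with h7 | h7
          · omega
          · exact h7.2
      · have h5 : al i u v B (n + 1) = al i u v B n := by rw [al_succ, if_neg h4]
        omega

/-- the statement for the letter `u` of the first block -/
theorem alt_aux {k : ℕ} (j0 : ℕ) (h0 : i < j0) (h0k : j0 ≤ k) (hu0 : u ∈ B j0)
    (hmin : ∀ j, i < j → j < j0 → v ∉ B j) (hv : ∃ j, i < j ∧ j ≤ k ∧ v ∈ B j)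
    (hd : ∀ j, i < j → j ≤ k → ¬ (u ∈ B j ∧ v ∈ B j)) :
    ∃ (r : ℕ) (f : ℕ → ℕ), 2 ≤ r ∧ r ≤ k ∧
        BMap k r f ∧ (∀ j ≤ i, f j = 0) ∧
        (∀ j, i < j → j ≤ k → u ∈ B j → f j % 2 = 1) ∧
        (∀ j, i < j → j ≤ k → v ∈ B j → f j % 2 = 0 ∧ 1 ≤ f j) ∧
        (∀ t, 1 ≤ t → t ≤ r → ∃ j, i < j ∧ j ≤ k ∧ f j = t ∧
          (t % 2 = 1 → u ∈ B j) ∧ (t % 2 = 0 → v ∈ B j)) ∧
        (∀ j ≤ k, (∀ j', i < j' → j' ≤ j → u ∉ B j') → f j = 0) := by
  have hU : ∀ j, i < j → j ≤ k → u ∈ B j → al i u v B j % 2 = 1 := by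
    intro j h1 h2 h3
    obtain ⟨j', rfl⟩ : ∃ j', j = j' + 1 := ⟨j - 1, by omega⟩
    rw [al_succ]
    by_cases h4 : al i u v B j' % 2 = 0
    · rw [if_pos ⟨h1, Or.inl ⟨h4, h3⟩⟩]
      omega
    · rw [if_neg]
      · omega
      · rintro ⟨-, h5 | h5⟩
        · exact h4 h5.1
        · exact hd _ h1 h2 ⟨h3, h5.2⟩
  have hV : ∀ j, i < j → j ≤ k → v ∈ B j → al i u v B j % 2 = 0 ∧ 1 ≤ al i u v B j := by
    intro j h1 h2 h3
    constructor
    · obtain ⟨j', rfl⟩ : ∃ j', j = j' + 1 := ⟨j - 1, by omega⟩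
      rw [al_succ]
      by_cases h4 : al i u v B j' % 2 = 1
      · rw [if_pos ⟨h1, Or.inr ⟨h4, h3⟩⟩]
        omega
      · rw [if_neg]
        · omega
        · rintro ⟨-, h5 | h5⟩
          · exact hd _ h1 h2 ⟨h5.2, h3⟩
          · exact h4 h5.1
    · have h5 := hU j0 h0 h0k hu0
      have h6 : j0 ≤ j := by
        by_contra h7
        exact hmin j h1 (by omega) h3
      have h7 := al_mono (i := i) (u := u) (v := v) (B := B) h6
      omega
  refine ⟨al i u v B k, al i u v B, ?_, al_le_self k, ⟨fun _ _ h _ => al_mono h, fun _ h =>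
    al_mono h⟩, fun j hj => al_zero j hj, hU, hV, al_first k, fun j _ h => al_zero' j h⟩
  obtain ⟨j, h1, h2, h3⟩ := hv
  have h4 := hV j h1 h2 h3
  have h5 := al_mono (i := i) (u := u) (v := v) (B := B) h2
  omega

theorem alt : AltStmt := by
  intro k i a b B _ hA hB hd
  have hex : ∃ j, i < j ∧ j ≤ k ∧ (a ∈ B j ∨ b ∈ B j) := by
    obtain ⟨j, h1, h2, h3⟩ := hA
    exact ⟨j, h1, h2, Or.inl h3⟩
  obtain ⟨j0, ⟨h1, h2, h3⟩, hmin⟩ : ∃ j0, (i < j0 ∧ j0 ≤ k ∧ (a ∈ B j0 ∨ b ∈ B j0)) ∧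
      ∀ j, j < j0 → ¬ (i < j ∧ j ≤ k ∧ (a ∈ B j ∨ b ∈ B j)) := by
    classical
    exact ⟨Nat.find hex, Nat.find_spec hex, fun j hj => Nat.find_min hex hj⟩
  rcases h3 with h3 | h3
  · obtain ⟨r, f, h⟩ := alt_aux (i := i) (u := a) (v := b) (B := B) j0 h1 h2 h3
      (fun j e1 e2 e3 => hmin j e2 ⟨e1, by omega, Or.inr e3⟩) hB hd
    exact ⟨a, b, r, f, Or.inl ⟨rfl, rfl⟩, h⟩
  · obtain ⟨r, f, h⟩ := alt_aux (i := i) (u := b) (v := a) (B := B) j0 h1 h2 h3
      (fun j e1 e2 e3 => hmin j e2 ⟨e1, by omega, Or.inl e3⟩) hA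
      (fun j e1 e2 e3 => hd j e1 e2 ⟨e3.2, e3.1⟩)
    exact ⟨b, a, r, f, Or.inr ⟨rfl, rfl⟩, h⟩

end Pool.Agent.MWGR.H95
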