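import Mathlib
import Pool.Agent.MWGR.StmtsA

/-!
# Row mwgr RT4: exchange of two light letters
-/

set_option autoImplicit false

namespace Pool.Agent.MWGR.H95

open Pool.Agent.Helper14_MV Pool.Agent.Helper2_MV Pool.Agent.MVO Pool.Agent.MWL Pool.Agent.MWS
  Pool.Agent.MWH Pool.Agent.MWGR

theorem gg_cnt {H S : List ℕ} (hS : ∀ x ∈ S, x ∈ H) (g : ℕ → ℕ) {c : ℕ} (hc : c ∉ H) :
    (GG S g).count c = 0 := by
  rw [List.count_eq_zero]
  intro h
  unfold GG at h
  obtain ⟨x, hx, h1⟩ := List.mem_flatMap.1 h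
  have h2 := (List.mem_replicate.1 h1).2
  exact hc (h2 ▸ hS x hx)

/-- `Ok1` depends only on the numbers of occurrences -/
theorem ok1_of {H pre suf l l' : List ℕ} (h : Ok1 H pre suf l)
    (h1 : ∀ x ∈ H, l.count x ≤ l'.count x) (h2 : ∀ a, a ∉ H → l'.count a = l.count a) :
    Ok1 H pre suf l' := by
  refine ⟨h.nd, fun x hx => (h.hv x hx).trans (h1 x hx), fun a ha haH => ?_⟩
  have h3 : 1 ≤ l'.count a := List.one_le_count_iff.2 ha
  rw [h2 a haH] at h3
  have h4 := h.lt a (List.one_le_count_iff.1 h3) haH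
  rw [h2 a haH]
  exact h4

theorem modz {n a b : ℕ} (k : ℤ) (h : (b : ℤ) - a = n * k) : a ≡ b [MOD n] :=
  Nat.modEq_iff_dvd.2 ⟨k, h⟩

theorem rt4 (_hPRM : PrmStmt) (hEXS : ExsStmt) (hRAP : RapStmt) (hROK : RokStmt) : Rt4Stmt := by
  intro n β η hBG hβη H pre suf T1 T2 a b Λ N hH hT hT' hSW
  have hn := hBG.pos
  obtain ⟨m, hm⟩ : ∃ m, n = m + 1 := ⟨n - 1, by omega⟩
  have hm' : n - 1 = m := by omega
  obtain ⟨O, hO⟩ : ∃ O, O = opn O0 T1 := ⟨_, rfl⟩
  obtain ⟨S, hS⟩ : ∃ S, S = H.filter O := ⟨_, rfl⟩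
  obtain ⟨R1, hR1⟩ : ∃ R1, R1 = real n H Λ N O0 T1 := ⟨_, rfl⟩
  obtain ⟨R2, hR2⟩ : ∃ R2, R2 = real n H Λ N O T2 := ⟨_, rfl⟩
  have hreal : ∀ c d, real n H Λ N O0 (T1 ++ (3 * c) :: (3 * d) :: T2) =
      R1 ++ (GG S (fun x => n + Λ x c) ++ c :: (GG S (fun x => n + (n - 1) * Λ x c) ++
        (GG S (fun x => n + Λ x d) ++ d :: (GG S (fun x => n + (n - 1) * Λ x d) ++ R2)))) := by
    intro c d
    have e1 : ∀ e : ℕ, 3 * e / 3 = e := fun e => Nat.mul_div_cancel_left e (by norm_num)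
    rw [hRAP.1, hS, hR1, hR2, ← hO]
    simp only [real, outL, Nat.mul_mod_right, if_true, e1, List.append_assoc, List.cons_append]
  have hSH : ∀ x ∈ S, x ∈ H := by
    intro x hx
    rw [hS] at hx
    exact (List.mem_filter.1 hx).1
  have hSm : ∀ x ∈ S, x ∈ H ∧ x ∈ R1 ∧ x ∈ R2 := by
    intro x hx
    have hxH := hSH x hx
    rw [hS, hO] at hx
    have h1 := (hRAP.2.2 H pre suf T1 _ hT x hxH).1 (List.mem_filter.1 hx).2
    refine ⟨hxH, ?_, ?_⟩
    · rw [hR1]
      exact (hROK n H Λ N hn hH).2.2.1 T1 O0 x h1.1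
    · rw [hR2]
      refine (hROK n H Λ N hn hH).2.2.2 T2 O x ?_
      have h2 := h1.2
      simp only [List.mem_cons] at h2
      rcases h2 with h2 | h2 | h2
      · omega
      · omega
      · exact h2
  have hSnd : S.Nodup := by rw [hS]; exact hH.filter _
  have hOkA := (hROK n H Λ N hn hH).1 pre suf _ hT
  have hOkB := (hROK n H Λ N hn hH).1 pre suf _ hT'
  rw [hreal] at hOkA hOkB
  rw [hreal, hreal]
  obtain ⟨g, hg⟩ : ∃ g : ℕ → ℕ, g = fun x => 2 * n + (n - 1) * Λ x a + Λ x b := ⟨_, rfl⟩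
  rw [← hg] at hSW
  -- step 1
  have s1 := (hEXS n β hBG H pre suf S (R1 ++ (GG S (fun x => n + Λ x a) ++ [a]))
    (b :: (GG S (fun x => n + (n - 1) * Λ x b) ++ R2)) (fun x => n + (n - 1) * Λ x a)
    (fun x => n + Λ x b) (fun x hx => ⟨(hSm x hx).1, List.mem_append_left _ (hSm x hx).2.1,
      List.mem_cons_of_mem _ (List.mem_append_right _ (hSm x hx).2.2)⟩)).2
      (by simpa only [List.append_assoc, List.cons_append, List.nil_append] using hOkA)
  have e1 : (fun x => n + (n - 1) * Λ x a + (n + Λ x b)) = g := by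
    rw [hg]
    funext x
    ring
  simp only [e1, List.append_assoc, List.cons_append, List.nil_append] at s1
  obtain ⟨o1, r1⟩ := s1
  -- step 2
  have r2 := hSW S (R1 ++ GG S (fun x => n + Λ x a)) (GG S (fun x => n + (n - 1) * Λ x b) ++ R2)
    hSnd (fun x hx => ⟨(hSm x hx).1, List.mem_append_left _ (hSm x hx).2.1,
      List.mem_append_right _ (hSm x hx).2.2⟩)
    (by simpa only [List.append_assoc, List.cons_append, List.nil_append] using o1)
  simp only [List.append_assoc, List.cons_append, List.nil_append] at r2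
  have o2 : Ok1 H pre suf (R1 ++ (GG S (fun x => n + Λ x a) ++ (GG S g ++ b ::
      (GG S (fun x => (n - 1) * g x) ++ a :: (GG S g ++
        (GG S (fun x => n + (n - 1) * Λ x b) ++ R2)))))) := by
    refine ok1_of o1 (fun x _ => ?_) (fun c hc => ?_)
    · simp only [List.count_append, List.count_cons]
      omega
    · simp only [List.count_append, List.count_cons, gg_cnt hSH _ hc]
      omega
  -- step 3: before `b`
  have s3 := (hEXS n β hBG H pre suf S R1 (b :: (GG S (fun x => (n - 1) * g x) ++ a :: (GG S g ++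
        (GG S (fun x => n + (n - 1) * Λ x b) ++ R2)))) (fun x => n + Λ x a) g
    (fun x hx => ⟨(hSm x hx).1, (hSm x hx).2.1, by simp [(hSm x hx).2.2]⟩)).2 o2
  obtain ⟨o3, r3⟩ := s3
  have s4 := (hEXS n β hBG H pre suf S R1 (b :: (GG S (fun x => (n - 1) * g x) ++ a :: (GG S g ++
        (GG S (fun x => n + (n - 1) * Λ x b) ++ R2)))) (fun x => n + Λ x a + g x)
        (fun x => n + Λ x b)
    (fun x hx => ⟨(hSm x hx).1, (hSm x hx).2.1, by simp [(hSm x hx).2.2]⟩)).1 o3
    (fun x _ => by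
      rw [hg]
      refine modz (-2 - Λ x a) ?_
      rw [hm']
      push_cast
      rw [hm]
      push_cast
      ring)
  obtain ⟨o4, r4⟩ := s4
  -- step 5: behind `a`
  have s5 := (hEXS n β hBG H pre suf S (R1 ++ (GG S (fun x => n + Λ x b) ++ b ::
      (GG S (fun x => (n - 1) * g x) ++ [a]))) R2 g (fun x => n + (n - 1) * Λ x b)
    (fun x hx => ⟨(hSm x hx).1, List.mem_append_left _ (hSm x hx).2.1, (hSm x hx).2.2⟩)).2
      (by simpa only [List.append_assoc, List.cons_append, List.nil_append] using o4)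
  obtain ⟨o5, r5⟩ := s5
  have s6 := (hEXS n β hBG H pre suf S (R1 ++ (GG S (fun x => n + Λ x b) ++ b ::
      (GG S (fun x => (n - 1) * g x) ++ [a]))) R2 (fun x => g x + (n + (n - 1) * Λ x b))
      (fun x => n + (n - 1) * Λ x a)
    (fun x hx => ⟨(hSm x hx).1, List.mem_append_left _ (hSm x hx).2.1, (hSm x hx).2.2⟩)).1 o5
    (fun x _ => by
      rw [hg]
      refine modz (-2 - Λ x b) ?_
      rw [hm']
      push_cast
      rw [hm]
      push_cast
      ring)
  obtain ⟨o6, r6⟩ := s6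
  -- step 7: between `b` and `a`
  have s7 := (hEXS n β hBG H pre suf S (R1 ++ (GG S (fun x => n + Λ x b) ++ [b]))
    (a :: (GG S (fun x => n + (n - 1) * Λ x a) ++ R2)) (fun x => (n - 1) * g x)
      (fun x => n + (n - 1) * Λ x b + (n + Λ x a))
    (fun x hx => ⟨(hSm x hx).1, List.mem_append_left _ (hSm x hx).2.1,
      List.mem_cons_of_mem _ (List.mem_append_right _ (hSm x hx).2.2)⟩)).1
      (by simpa only [List.append_assoc, List.cons_append, List.nil_append] using o6)
    (fun x _ => by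
      rw [hg]
      refine modz (2 - 2 * m + Λ x a * (1 - m)) ?_
      rw [hm']
      push_cast
      rw [hm]
      push_cast
      ring)
  obtain ⟨o7, r7⟩ := s7
  have s8 := (hEXS n β hBG H pre suf S (R1 ++ (GG S (fun x => n + Λ x b) ++ [b]))
    (a :: (GG S (fun x => n + (n - 1) * Λ x a) ++ R2)) (fun x => n + (n - 1) * Λ x b)
      (fun x => n + Λ x a)
    (fun x hx => ⟨(hSm x hx).1, List.mem_append_left _ (hSm x hx).2.1,
      List.mem_cons_of_mem _ (List.mem_append_right _ (hSm x hx).2.2)⟩)).2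
      (by simpa only [List.append_assoc, List.cons_append, List.nil_append] using hOkB)
  obtain ⟨o8, r8⟩ := s8
  have r1' := hβη _ _ r1
  have r3' := hβη _ _ r3
  have r4' := hβη _ _ r4
  have r5' := hβη _ _ r5
  have r6' := hβη _ _ r6
  have r7' := hβη _ _ r7
  have r8' := hβη _ _ r8
  simp only [List.append_assoc, List.cons_append, List.nil_append] at r3' r4' r5' r6' r7' r8'
  exact η.trans (η.trans (η.trans (η.trans (η.trans (η.trans (η.trans r1' r2) r3') r4') r5') r6')
    r7') (η.symm r8')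

end Pool.Agent.MWGR.H95
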